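import Pool.Agent.MPba6.Final

namespace Pool.Agent.Results.MP_ba6ea3_co.ShiftedHeller

/-- A real matrix is totally 1-submodular if every square submatrix, of every size, has
determinant in `[-1, 1]`. -/
def TotallyOneSubmodular {m n : ℕ} (M : Matrix (Fin m) (Fin n) ℝ) : Prop :=
  ∀ (k : ℕ) (r : Fin k → Fin m) (c : Fin k → Fin n),
    Function.Injective r → Function.Injective c → |(M.submatrix r c).det| ≤ 1

/-- `n` is one of the column numbers over which the shifted Heller constant `h_s(m)` is the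
maximum: there are `t ∈ [0,1)^m`, `t ≠ 0`, and a matrix `A` with entries in `{-1, 0, 1}`, `m` rows
and `n` pairwise distinct columns, such that `t + A` is totally 1-submodular. -/
def ShiftedFeasible (m n : ℕ) : Prop :=
  ∃ (t : Fin m → ℝ) (A : Matrix (Fin m) (Fin n) ℤ),
    (∀ i, 0 ≤ t i ∧ t i < 1) ∧ t ≠ 0 ∧
    (∀ i j, A i j = -1 ∨ A i j = 0 ∨ A i j = 1) ∧
    (∀ j j', (∀ i, A i j = A i j') → j = j') ∧
    TotallyOneSubmodular (Matrix.of fun i j => t i + (A i j : ℝ))

/-- The shifted Heller constant satisfies `h_s(m) ≤ m ^ 2 + m`, hence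
`h_s(m) < m ^ 2 + m + 1 = h(1, m)`. -/
theorem result : ∀ m n : ℕ, ShiftedFeasible m n → n ≤ m ^ 2 + m := by
  rintro m n ⟨t, A, ht, ht0, _, hdist, hTS⟩
  exact Pool.Agent.MPba6.matrix_bound m n t A ht ht0 hdist
    fun k r c hr hc => hTS k r c hr hc

end Pool.Agent.Results.MP_ba6ea3_co.ShiftedHeller
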